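import Pool.Agent.Run7.h915.Main

/-!
# `WKL_0` proves that every noncomputable set is Turing incomparable with some set

The statement quantifies over all models `(M, S)` of `WKL_0`; the number part `M` may be
nonstandard.  By the completeness theorem this says that the sentence

  for all `X` (if `X` is not computable then there is `Y` with `X` not `≤_T Y` and `Y` not `≤_T X`)

is provable in `WKL_0`.
-/

set_option linter.unusedSectionVars false

namespace Pool.Agent.Results.MP_1db90f_lc.IncomparableInWKL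

open Run7.h915

universe u

theorem result (M : Type u) [CommSemiring M] [LinearOrder M] [IsStrictOrderedRing M]
    [CanonicallyOrderedAdd M] (S : Set (Set M)) (hS : IsModelWKL0 M S) :
    ∀ X ∈ S, ¬ TuringLE X ∅ → ∃ Y ∈ S, ¬ TuringLE X Y ∧ ¬ TuringLE Y X := by
  intro X hXS hnc
  have : Disc M := ⟨hS.disc⟩
  have : IndS S := ⟨hS.induction⟩
  have : IS1 M := IS1.of S
  have hind : ∀ Y ∈ S, IndS ({Y} : Set (Set M)) := fun Y hY =>
    IndS.mono (Set.singleton_subset_iff.2 hY)
  have hcompr : ∀ P : M → Prop, Comp S P → {x | P x} ∈ S := fun P hP =>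
    hP.comprehension hS.comprehension
  have hempty : (∅ : Set M) ∈ S := by
    have := hcompr (fun _ => False) (Comp.const _)
    simpa using this
  have := hind X hXS
  have := hind ∅ hempty
  have hX : Comp S (fun i : M => i ∈ X) := Comp.oracle hXS
  have hnc' : ¬ Comp (∅ : Set (Set M)) (fun i : M => i ∈ X) := fun h =>
    hnc (turingLE_iff.2 (h.mono (Set.empty_subset _)))
  have hT : {z | TT X z} ∈ S := hcompr _ (by fun_prop)
  obtain ⟨P, hPS, hPT, hPtree, hP1, hPch⟩ := hS.koenig {z | TT X z} hT (TT_tree hX) (fun n => by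
    obtain ⟨z, hz, hn⟩ := TT_unbounded hX n
    exact ⟨z, hz, hn⟩)
  obtain ⟨Z, hZ, hZP⟩ := pz_prop (Comp.oracle hPS) hP1 hPtree.1 (fun s hs => by
    rcases hPch s hs with h | h
    · exact Or.inl h.1
    · exact Or.inr h.2)
  have hZS : Z ∈ S := hcompr _ hZ
  have := hind Z hZS
  have hTZ : ∀ n, TT X (xs Z n) := fun n => hPT (hZP n)
  by_cases hc : Comp {Z} (fun i : M => i ∈ X)
  · obtain ⟨Y, hY, h1, h2⟩ := case_B hX hZ hTZ hcompr hind hnc' hc
    have := hind Y hY
    exact ⟨Y, hY, fun h => h1 (turingLE_iff.1 h), fun h => h2 (turingLE_iff.1 h)⟩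
  · exact ⟨Z, hZS, fun h => hc (turingLE_iff.1 h), fun h =>
      case_A hX hZ hTZ (turingLE_iff.1 h)⟩

end Pool.Agent.Results.MP_1db90f_lc.IncomparableInWKL
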